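import Pool.Agent.helper54.TS.Spec

/-!
# Project ts, row INV: one block keeps states admissible
-/

set_option autoImplicit false

open Polynomial Finset

noncomputable section

namespace Pool.Agent.TS

open Pool.Agent.PSA (IsSalem Indep Fac)

theorem INV (hNNR : NNR_stmt) : INV_stmt := by
  intro K _ ι β σ k φ w hSF F dg S δ hB v N H C n1 k0 Sg hC M q hq hcase
  obtain ⟨-, -, -, hadd, hsub, -, -, hmul⟩ := hNNR K k φ
  obtain ⟨h0, h1, h2, h3, h4, h5⟩ := hq
  have hv : 0 < ι v := lt_trans one_pos hC.v1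
  have hβ : 0 < ι β := lt_trans one_pos hSF.gt
  have hy0 : 0 ≤ ι q.1 / ι v := div_nonneg h0 hv.le
  have hy1 : ι q.1 / ι v < 1 := (div_lt_one hv).2 h1
  obtain ⟨y, hy⟩ : ∃ y, y = ι q.1 / ι v := ⟨_, rfl⟩
  have hyv : ι v * y = ι q.1 := by rw [hy]; field_simp
  obtain ⟨e, he⟩ : ∃ e, e = dg y := ⟨_, rfl⟩
  have hblo : blo ι β v dg q = (β * q.1 - v * e, q.2 - 1) := by
    unfold blo
    rw [he, hy]
  rw [hblo]
  rw [← hy] at hy0 hy1
  have heS : e ∈ S := by rw [he]; exact hB.mem y hy0 hy1.le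
  have hF : F y = ι β * y - ι e := by rw [he]; exact hB.eq y hy0 hy1.le
  obtain ⟨hF0, hF1⟩ := hB.rb.rng y hy0 hy1.le
  have hval : ι (β * q.1 - v * e) = ι v * F y := by
    rw [map_sub, map_mul, map_mul, hF, ← hyv]
    ring
  refine ⟨?_, ?_, ?_, ?_, ?_, ?_⟩
  · show 0 ≤ ι (β * q.1 - v * e)
    rw [hval]
    exact mul_nonneg hv.le hF0
  · show ι (β * q.1 - v * e) < ι v
    rw [hval]
    calc ι v * F y < ι v * 1 := mul_lt_mul_of_pos_left hF1 hv
      _ = ι v := mul_one _
  · show q.2 - 1 ≤ H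
    omega
  · show IsIntegral ℤ ((N : K) * (β * q.1 - v * e))
    have e1 : (N : K) * (β * q.1 - v * e) = β * ((N : K) * q.1) - v * ((N : K) * e) := by ring
    rw [e1]
    exact (hSF.int.mul h3).sub (hC.vi.mul (hC.ni e heS))
  · show |σ (β * q.1 - v * e)| ≤ Sg
    rw [map_sub, map_mul σ β, hSF.sig]
    have e1 : |(ι β)⁻¹ * σ q.1| ≤ (ι β)⁻¹ * (Sg + (ι β) ^ H) := by
      rw [abs_mul, abs_of_pos (inv_pos.2 hβ)]
      exact mul_le_mul_of_nonneg_left h4 (inv_pos.2 hβ).le
    have e2 := hC.sv e heS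
    have e3 := hC.sg
    calc |(ι β)⁻¹ * σ q.1 - σ (v * e)| ≤ |(ι β)⁻¹ * σ q.1| + |σ (v * e)| := abs_sub _ _
      _ ≤ Sg := by linarith
  · show nn φ (β * q.1 - v * e) + ((q.2 - 1 : ℕ) : ℝ) * n1 ≤ M
    have hbn : nn φ (β * q.1) = nn φ q.1 := by
      apply hmul
      intro j
      rw [hSF.val j]
      exact Circle.norm_coe _
    rcases Nat.eq_zero_or_pos q.2 with hz | hp
    · rcases hcase with hc | hc
      · omega
      · have hyb : ι β * y < 1 := by
          have e1 : y < (ι β)⁻¹ := by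
            rw [hy, div_lt_iff₀ hv]
            linarith
          calc ι β * y < ι β * (ι β)⁻¹ := mul_lt_mul_of_pos_left e1 hβ
            _ = 1 := mul_inv_cancel₀ hβ.ne'
        have hFy : F y = ι β * y := by
          have e1 := hB.rb.z0 (ι β * y) (mul_nonneg hβ.le hy0) hyb
          rw [← mul_assoc, inv_mul_cancel₀ hβ.ne', one_mul] at e1
          exact e1
        have he0 : ι e = 0 := by linarith
        have he1 : e = 0 := by
          apply ι.injective
          rw [he0, map_zero]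
        rw [he1, mul_zero, sub_zero, hbn, hz]
        rw [hz] at h5
        simpa using h5
    · have e1 := hsub (β * q.1) (v * e)
      have e2 := hC.no e heS
      have e3 : ((q.2 - 1 : ℕ) : ℝ) = (q.2 : ℝ) - 1 := by
        rw [Nat.cast_sub hp, Nat.cast_one]
      rw [e3]
      rw [hbn] at e1
      linarith

end Pool.Agent.TS

end
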